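import Pool.Agent.MWL.Stmts

/-!
Squad MWL (MP_23468a_al), row FLB (helper15): a functorial congruence is determined by its bits and divisors.
-/

namespace Pool.Agent.MWL.H15

open Pool.Agent.MVO Pool.Agent.Helper14_MV Pool.Agent.Helper2_MV Pool.Agent.MWL

theorem flb (KEY : KeyStmt) (TRN : TrnStmt) (TAB : TabStmt) (RMV : RmvStmt) (CLO : CloStmt) :
    FlbStmt := by
  classical
  intro n R T d m d' m' hR hT hND hDM hDM' hdd hmm hbits k a b hab
  by_cases h1 : deg k a ≤ 1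
  · exact T.ext (fun j _ => rfl) (hND k a b hab h1) (T.refl k a)
  by_cases h2 : deg k b ≤ 1
  · exact T.symm (T.ext (fun j _ => rfl) (hND k b a (R.symm hab) h2) (T.refl k b))
  obtain ⟨hr1, hr2⟩ := (RMV n R d m hR hDM k a).2.2 b hab
  have habs : ∀ c : ℕ → ℕ, 2 ≤ deg k c → ∀ i ≤ k, Ab n R k c i → Ab n T k c i := by
    intro c hc i hi h
    obtain ⟨L, hL, hiff⟩ := TAB k c i hi hc
    exact (hiff n T hT).2 fun β hβ => hbits β (hL β hβ) ((hiff n R hR).1 h β hβ)
  refine CLO n T d' m' hT hDM' k a b ((Finset.range (k + 1)).filter (fun i => Ab n R k a i))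
    ?_ ?_ ?_ ?_
  · intro i hi
    obtain ⟨hi1, hi2⟩ := Finset.mem_filter.1 hi
    have hik : i ≤ k := Nat.lt_succ_iff.1 (Finset.mem_range.1 hi1)
    exact ⟨hik, habs a (by omega) i hik hi2,
      habs b (by omega) i hik (((TRN n R k a i).1 b hab).1 hi2)⟩
  · intro i hi hiS
    refine KEY n R hR hND k a b hab i hi fun h => hiS ?_
    exact Finset.mem_filter.2 ⟨Finset.mem_range.2 (Nat.lt_succ_iff.2 hi), h⟩
  · intro j hj
    exact (hr1 j hj).of_dvd hmm
  · exact hr2.of_dvd hdd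

end Pool.Agent.MWL.H15
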